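import Pool.Agent.Helper53.FM.Defs
import Pool.Agent.Helper54.FB.B6
import Pool.Agent.Helper71.WR.C2
import Pool.Agent.Helper3.ThinRep

set_option autoImplicit false

/-!
# Project FM, pieces B3 and B4: long windows of a world, balanced sums of two elements
-/

namespace Pool.Agent.Helper61.FM

open Finset
open Pool.Agent.Helper3.Thin
open Pool.Agent.Helper53.WR
open Pool.Agent.Helper48.FB (win crossF Cs WinLe Fs Dk LR zR dens)
open Pool.Agent.Helper53.FM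

/-- FM-B3 (long windows of a world). -/
theorem world_win_long {q : ℕ} [Fact q.Prime] (Γ : Finset (ZMod q × ZMod q)) (T : Finset ℕ)
    (S yS W : ℕ) (τ : ZMod q × ZMod q → ZMod q × ZMod q)
    (σ : (ZMod q × ZMod q) × (ZMod q × ZMod q) → ℕ) (hσ : ∀ p, σ p < S)
    (hy : ∀ s, ((Γ ×ˢ Γ).filter (fun p => σ p = s)).card ≤ yS) (y h : ℕ)
    (hW : ∀ z, y / q ^ 4 ≤ z + 514 + 2 * S → (win T z S).card ≤ W) :
    (win (World Γ T S τ σ) y h).card ≤ 4096 * ((h / q ^ 4 + 2) * yS * W) := by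
  classical
  have hq : 0 < q ^ 4 := pow_pos (Fact.out : q.Prime).pos 4
  obtain ⟨L, hLm, hLc⟩ : ∃ L : Finset Lab, (∀ ε, ε ∈ L) ∧ L.card = 4096 :=
    ⟨univ, mem_univ, by rw [card_univ, Pool.Agent.Helper54.FB.card_Lab]⟩
  have hsub : win (World Γ T S τ σ) y h ⊆ L.biUnion (fun ε =>
      (Ico ((y - off q ε) / q ^ 4) ((y - off q ε) / q ^ 4 + (h / q ^ 4 + 2))).biUnion (fun Z =>
        (win T (Z + 1 - 2 * S) S).biUnion (fun t =>
          ((Γ ×ˢ Γ).filter (fun p => σ p = Z - S - t)).image (fun p => elt S τ σ p ε t)))) := by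
    intro b hb
    obtain ⟨ε, Z, t, p, h1, h2, h3, h4, h5⟩ := Pool.Agent.Helper54.FB.key_win hσ hb
    exact mem_biUnion.2 ⟨ε, hLm ε, mem_biUnion.2 ⟨Z, mem_Ico.2 ⟨h1, h2⟩,
      mem_biUnion.2 ⟨t, h3, mem_image.2 ⟨p, h4, h5⟩⟩⟩⟩
  refine (card_le_card hsub).trans ?_
  have hin : ∀ (ε : Lab) (Z t : ℕ),
      (((Γ ×ˢ Γ).filter (fun p => σ p = Z - S - t)).image (fun p => elt S τ σ p ε t)).card ≤ yS :=
    fun ε Z t => card_image_le.trans (hy _)
  refine (card_biUnion_le_card_mul _ _ ((h / q ^ 4 + 2) * yS * W) (fun ε _ => ?_)).trans ?_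
  · refine (card_biUnion_le_card_mul _ _ (W * yS) (fun Z hZ => ?_)).trans ?_
    · refine (card_biUnion_le_card_mul _ _ yS (fun t _ => hin ε Z t)).trans ?_
      refine Nat.mul_le_mul_right _ (hW _ ?_)
      have h1 := (mem_Ico.1 hZ).1
      have h2 := off_le q (Fact.out : q.Prime).two_le ε
      have h3 : (y - off q ε) < (Z + 1) * q ^ 4 := by
        have := (Nat.div_lt_iff_lt_mul hq).1 (Nat.lt_succ_of_le h1)
        simpa using this
      have h4 : y < (Z + 514) * q ^ 4 := by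
        have : (Z + 514) * q ^ 4 = (Z + 1) * q ^ 4 + 513 * q ^ 4 := by ring
        omega
      have h5 : y / q ^ 4 < Z + 514 := (Nat.div_lt_iff_lt_mul hq).2 h4
      omega
    · rw [Nat.card_Ico, Nat.add_sub_cancel_left]
      exact le_of_eq (by ring)
  · rw [hLc]

/-- FM-B4 (balanced sums of two elements of a world). -/
theorem world_cover_bal {q : ℕ} [Fact q.Prime] {Γ : Finset (ZMod q × ZMod q)} (hΓ : GoodSet Γ)
    (T : Finset ℕ) (S c : ℕ) (τ : ZMod q × ZMod q → ZMod q × ZMod q)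
    (σ : (ZMod q × ZMod q) × (ZMod q × ZMod q) → ℕ) (hσ : ∀ p, σ p < S) (n : ℕ)
    (hn : 9 + 8 * S ≤ n / q ^ 4)
    (hc : ∀ m : ℕ, n / q ^ 4 ≤ m + 4 + 4 * S → m ≤ n / q ^ 4 →
      ∃ t ∈ T, ∃ t' ∈ T, t + t' = m ∧ m ≤ c * t ∧ m ≤ c * t') :
    ∃ x ∈ World Γ T S τ σ, ∃ y ∈ World Γ T S τ σ, x + y = n ∧ n ≤ 2 * c * x ∧ n ≤ 2 * c * y := by
  have hq : 0 < q := (Fact.out : q.Prime).pos
  have hq4 : 0 < q ^ 4 := by positivity
  have hmod := Nat.mod_lt n hq4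
  have hn' : n % q ^ 4 + q ^ 4 * (n / q ^ 4) = n := Nat.mod_add_div n _
  generalize n % q ^ 4 = r at hn' hmod
  generalize n / q ^ 4 = N at hn' hn hc
  obtain ⟨a, b, ε, ε', ⟨ha, hau, haz⟩, ⟨hb, hbu, hbz⟩, hab⟩ :=
    cover_one hΓ τ (r + 4 * q ^ 4) (by omega) (by omega)
  have key : ∀ c : ℕ, c < q ^ 4 → ∀ (δ : Lab) (t : ℕ),
      elt S τ σ (dig q c, dig q (c / q ^ 2) - τ (dig q c)) δ t
        = c + off q δ + q ^ 4 * (S + σ (dig q c, dig q (c / q ^ 2) - τ (dig q c)) + t) := by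
    intro c hc δ t
    unfold elt
    rw [sub_add_cancel, Pool.Agent.Helper71.WR.und_dig hc]
  have mem : ∀ c : ℕ, dig q c ∈ Γ → dig q (c / q ^ 2) - τ (dig q c) ∈ Γ → ∀ (δ : Lab), ∀ t ∈ T,
      elt S τ σ (dig q c, dig q (c / q ^ 2) - τ (dig q c)) δ t ∈ World Γ T S τ σ := by
    intro c h1 h2 δ t ht
    unfold World Ind
    refine mem_image.2 ⟨(((dig q c, dig q (c / q ^ 2) - τ (dig q c)), δ), t), ?_, rfl⟩
    simp only [mem_product, mem_univ, and_true]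
    exact ⟨⟨h1, h2⟩, ht⟩
  set s := σ (dig q a, dig q (a / q ^ 2) - τ (dig q a)) with hs
  set s' := σ (dig q b, dig q (b / q ^ 2) - τ (dig q b)) with hs'
  have h1 : s < S := hσ _
  have h2 : s' < S := hσ _
  obtain ⟨m, hm⟩ : ∃ m, N = m + 4 + 2 * S + s + s' :=
    ⟨N - (4 + 2 * S + s + s'), by omega⟩
  obtain ⟨t, ht, t', ht', htt, hct, hct'⟩ := hc m (by omega) (by omega)
  have hbal : ∀ (u v w : ℕ), m ≤ c * u → n ≤ 2 * c * (w + q ^ 4 * (S + v + u)) := by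
    intro u v w hu
    have e1 : N + 1 ≤ 2 * m := by omega
    have e2 : n < q ^ 4 * (N + 1) := by
      have : q ^ 4 * (N + 1) = q ^ 4 * N + q ^ 4 := by ring
      omega
    calc n ≤ q ^ 4 * (N + 1) := e2.le
      _ ≤ q ^ 4 * (2 * m) := Nat.mul_le_mul_left _ e1
      _ ≤ q ^ 4 * (2 * (c * u)) := Nat.mul_le_mul_left _ (Nat.mul_le_mul_left _ hu)
      _ = 2 * c * (q ^ 4 * u) := by ring
      _ ≤ 2 * c * (w + q ^ 4 * (S + v + u)) := by
          refine Nat.mul_le_mul_left _ ?_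
          exact (Nat.mul_le_mul_left _ (by omega : u ≤ S + v + u)).trans (Nat.le_add_left _ _)
  refine ⟨_, mem a hau haz ε t ht, _, mem b hbu hbz ε' t' ht', ?_, ?_, ?_⟩
  · rw [key a ha, key b hb, ← hs, ← hs']
    rw [hm] at hn'
    have e1 : q ^ 4 * (S + s + t) + q ^ 4 * (S + s' + t') = q ^ 4 * (2 * S + s + s' + m) := by
      rw [← htt]; ring
    have e2 : q ^ 4 * (m + 4 + 2 * S + s + s') = q ^ 4 * (2 * S + s + s' + m) + 4 * q ^ 4 := by
      ring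
    omega
  · rw [key a ha]
    exact hbal t _ _ hct
  · rw [key b hb]
    exact hbal t' _ _ hct'

end Pool.Agent.Helper61.FM
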